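import Mathlib
import Pool.Agent.X10.AI.SpecL

set_option autoImplicit false

/-!
# MP_f53aaa_nt: the law for the prime values of the recurrence of the admissible primes, all indices

The numbers `p_m = 8 d_m ^ 2 + 1 = 64 b_m ^ 2 + 9` are `2 λ ^ m + 2 λ ^ (-m) + 5` with `λ = 17 + 12 √2`,
and `p_m - 5` satisfies `x (m + 2) = 34 x (m + 1) - x m`, whose real solutions are
`β λ ^ m + B λ ^ (-m)`.
-/

namespace Pool.Agent.Results.MP_f53aaa_nt.AllIndexLaw

open Filter Topology MeasureTheory Asymptotics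

/-- `λ = 17 + 12 √2 = (3 + √8) ^ 2` -/
noncomputable def lam : ℝ := 17 + 12 * Real.sqrt 2

/-- the integer `⌊β λ ^ m + B λ ^ (-m)⌋ + 5` -/
noncomputable def U (B β : ℝ) (m : ℕ) : ℕ := ⌊β * lam ^ m + B / lam ^ m⌋₊ + 5

open Classical in
/-- the number of indices `m` in `S` with `2 ≤ m ≤ n` for which `s m` is prime -/
noncomputable def M (s : ℕ → ℕ) (S : Set ℕ) (n : ℕ) : ℕ :=
  ((Finset.Icc 2 n).filter (fun m => m ∈ S ∧ (s m).Prime)).card

open Classical in
/-- the sum of `1 / m` over the indices `m` in `S` with `2 ≤ m ≤ n` -/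
noncomputable def V (S : Set ℕ) (n : ℕ) : ℝ :=
  ∑ m ∈ (Finset.Icc 2 n).filter (fun m => m ∈ S), 1 / (m : ℝ)

/-- The law with constant `κ` for the prime values of the sequence `s` of integers. -/
structure Law (s : ℕ → ℕ) (κ : ℝ) (S : Set ℕ) : Prop where
  /-- the number of all indices `m ≤ n` with `s m` prime -/
  all : (fun n : ℕ => (M s Set.univ n : ℝ) - κ * Real.log n) =O[atTop]
    (fun n : ℕ => Real.sqrt (Real.log n) * (Real.log (Real.log n)) ^ ((5 : ℝ) / 2))
  /-- the number of indices `m ≤ n` in `S` with `s m` prime -/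
  sets : Tendsto (V S) atTop atTop → (fun n : ℕ => (M s S n : ℝ) - κ * V S n) =O[atTop]
    (fun n : ℕ => Real.sqrt (V S n * Real.log (Real.log n)) *
      (Real.log (V S n * Real.log (Real.log n))) ^ 2)
  /-- there are infinitely many in `S` if and only if the sum of the reciprocals is infinite -/
  dichotomy : {m : ℕ | m ∈ S ∧ (s m).Prime}.Infinite ↔ Tendsto (V S) atTop atTop

lemma V_eq (S : Set ℕ) : V S = Pool.Agent.X10.AI.VS S := by
  funext n
  unfold V Pool.Agent.X10.AI.VS Pool.Agent.X10.AI.wt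
  rw [← Finset.sum_filter]
  refine Finset.sum_congr ?_ fun _ _ => rfl
  ext q
  simp only [Finset.mem_filter, Finset.mem_Icc, Finset.mem_range]
  constructor
  · rintro ⟨⟨h1, h2⟩, h3⟩
    exact ⟨by omega, h3, h1⟩
  · rintro ⟨h1, h2, h3⟩
    exact ⟨⟨h3, by omega⟩, h2⟩

lemma M_eq (s : ℕ → ℕ) (S : Set ℕ) (n : ℕ) : M s S n = Pool.Agent.X10.AI.cS S s n := by
  unfold M Pool.Agent.X10.AI.cS
  congr 1
  ext q
  simp only [Finset.mem_filter, Finset.mem_Icc, Finset.mem_range]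
  constructor
  · rintro ⟨⟨h1, h2⟩, h3, h4⟩
    exact ⟨by omega, h1, h3, h4⟩
  · rintro ⟨h1, h2, h3, h4⟩
    exact ⟨⟨h2, by omega⟩, h3, h4⟩

lemma law_of {s : ℕ → ℕ} {κ : ℝ} {S : Set ℕ}
    (h1 : Pool.Agent.X10.AI.Pt s κ Set.univ) (h2 : Pool.Agent.X10.AI.Pt s κ S) : Law s κ S := by
  refine ⟨?_, fun hS => ?_, ?_⟩
  · obtain ⟨B, hB, h⟩ := h1.law Pool.Agent.X10.AI.VS_univ_tendsto
    simp only [M_eq]
    exact Pool.Agent.X10.AI.bigO_all hB h
  · rw [V_eq] at hS ⊢
    obtain ⟨B, hB, h⟩ := h2.law hS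
    simp only [M_eq]
    exact Pool.Agent.TH888.R.bigO_set hB hS h
  · rw [V_eq]
    constructor
    · intro hi
      by_contra hn
      refine hi (((h2.fin hn).union (Set.finite_lt_nat 2)).subset fun m hm => ?_)
      by_cases h : 2 ≤ m
      · exact Or.inl ⟨h, hm⟩
      · exact Or.inr (by show m < 2; omega)
    · intro hS
      exact (h2.inf hS).mono fun m hm => hm.2

/-- (1) There are infinitely many admissible primes if and only if `U 2 2 m` is prime for infinitely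
many `m`.  (2) Every real solution of `x (m + 2) = 34 x (m + 1) - x m` is `β λ ^ m + B λ ^ (-m)`.
(3) For every real `B`, every set `S` of indices and almost every `β > 0`, the law holds for
`U B β` with the constant `1 / log λ`. -/
theorem result :
    ({p : ℕ | p.Prime ∧ ∃ b d : ℤ, (p : ℤ) = 64 * b ^ 2 + 9 ∧ (p : ℤ) = 8 * d ^ 2 + 1}.Infinite ↔
      {m : ℕ | (U 2 2 m).Prime}.Infinite) ∧
    (∀ x : ℕ → ℝ, (∀ m, x (m + 2) = 34 * x (m + 1) - x m) →
      ∃ β B : ℝ, ∀ m, x m = β * lam ^ m + B / lam ^ m) ∧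
    ∀ (B : ℝ) (S : Set ℕ), ∀ᵐ β : ℝ, 0 < β → Law (U B β) (1 / Real.log lam) S := by
  refine ⟨Pool.Agent.X10.AI.admissible_iff, fun x hx => Pool.Agent.X10.AI.solution x hx,
    fun B S => ?_⟩
  filter_upwards [Pool.Agent.X10.AI.pt_U B Set.univ, Pool.Agent.X10.AI.pt_U B S] with β h1 h2 h0
  exact law_of (h1 h0) (h2 h0)

end Pool.Agent.Results.MP_f53aaa_nt.AllIndexLaw
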