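import Mathlib
import Pool.Agent.X10.AI.Spec

set_option autoImplicit false

/-!
# MP_f53aaa_nt: prime values with close indices in the recurrence of the admissible primes

The numbers `p_m = 8 d_m ^ 2 + 1 = 64 b_m ^ 2 + 9` are `2 λ ^ m + 2 λ ^ (-m) + 5` with `λ = 17 + 12 √2`.
-/

namespace Pool.Agent.Results.MP_f53aaa_nt.ClosePairs

open Filter MeasureTheory

/-- `λ = 17 + 12 √2` -/
noncomputable def lam : ℝ := 17 + 12 * Real.sqrt 2

/-- the integer `⌊β λ ^ m + B λ ^ (-m)⌋ + 5` -/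
noncomputable def U (B β : ℝ) (m : ℕ) : ℕ := ⌊β * lam ^ m + B / lam ^ m⌋₊ + 5

/-- (1) There are infinitely many admissible primes if and only if `U 2 2 m` is prime for infinitely
many `m`.  (2) Every real solution of `x (m + 2) = 34 x (m + 1) - x m` is `β λ ^ m + B λ ^ (-m)`.
(3) For every real `B` and every `W : ℕ → ℕ` with `∑ W m / m ^ 2 < ∞`, for almost every `β > 0`: for all
large `m` there is no `n` with `m < n ≤ m + W m` for which `U B β m` and `U B β n` are both prime. -/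
theorem result :
    ({p : ℕ | p.Prime ∧ ∃ b d : ℤ, (p : ℤ) = 64 * b ^ 2 + 9 ∧ (p : ℤ) = 8 * d ^ 2 + 1}.Infinite ↔
      {m : ℕ | (U 2 2 m).Prime}.Infinite) ∧
    (∀ x : ℕ → ℝ, (∀ m, x (m + 2) = 34 * x (m + 1) - x m) →
      ∃ β B : ℝ, ∀ m, x m = β * lam ^ m + B / lam ^ m) ∧
    ∀ (B : ℝ) (W : ℕ → ℕ), Summable (fun m : ℕ => (W m : ℝ) / (m : ℝ) ^ 2) →
      ∀ᵐ β : ℝ, 0 < β → ∀ᶠ m : ℕ in atTop, ∀ n : ℕ, m < n → n ≤ m + W m →
        ¬ ((U B β m).Prime ∧ (U B β n).Prime) :=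
  ⟨Pool.Agent.X10.AI.admissible_iff, fun x hx => Pool.Agent.X10.AI.solution x hx,
    fun B W hW => Pool.Agent.X10.AI.spacing_U B W hW⟩

end Pool.Agent.Results.MP_f53aaa_nt.ClosePairs
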