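import Pool.Agent.X37.PE.Main

/-!
# MP_f53aaa_nt: blocks of terms `8 d ^ 2 + 1` with cofactors without small prime factors

The admissible primes are the primes among the numbers `a m = 8 d ^ 2 + 1 = 64 b ^ 2 + 9`, where
`d + b √8 = (3 + √8) ^ m`. For every `R` and `ε > 0` there are, for large `x`, at least `x ^ (1 - ε)` indices `m ≤ x`
such that all the `2 R + 1` terms with the indices `m - R, …, m + R` have the form
`a (m + r) = a r * b`, `a (m - r) = a r * b'` (`0 ≤ r ≤ R`), where all prime factors of the cofactors `b`, `b'` are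
larger than `c (log x) ^ 2`. For `r = 1, 7, 13, …` the number `a r` is an admissible prime itself.

Every prime factor `q ≥ 5` of a term splits in `ℤ[√2]`, and divisibility by `q` depends on the index modulo the order
`o` of `17 + 12 √2` modulo `q`, a divisor of `q - 1`. For `w = c₁ log x` and `m` divisible by the cube `K` of
`lcm (1, …, w)` the primes with `o ∣ K` cause no problem. For the other primes `q ≤ c (log x) ^ 2` the order has
exactly one prime factor `l > w`, and `q` excludes at most `4 (R + 1)` residue classes of `m / K` modulo `l`; these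
classes are sifted by a pure sieve.
-/

set_option autoImplicit false

namespace Pool.Agent.Results.MP_f53aaa_nt.CofactorsBeyondLogSquared

open Finset

/-- `(d, b)` with `d + b √8 = (3 + √8) ^ m` -/
def sol : ℕ → ℕ × ℕ
  | 0 => (1, 0)
  | m + 1 => (3 * (sol m).1 + 8 * (sol m).2, (sol m).1 + 3 * (sol m).2)

/-- the common value `8 d ^ 2 + 1` (`= 64 b ^ 2 + 9`) -/
def a (m : ℕ) : ℕ := 8 * (sol m).1 ^ 2 + 1

lemma sol_eq (m : ℕ) : sol m = Pool.Agent.X37.PE.sol m := by
  induction m with
  | zero => rfl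
  | succ m ih => simp only [sol, Pool.Agent.X37.PE.sol, ih]

lemma a_eq (m : ℕ) : a m = Pool.Agent.X37.PE.a m := by
  unfold a Pool.Agent.X37.PE.a
  rw [sol_eq]

open Classical in
theorem result (R : ℕ) (ε : ℝ) (hε : 0 < ε) : ∃ c : ℝ, 0 < c ∧ ∃ x₀ : ℕ, ∀ x : ℕ, x₀ ≤ x →
    (x : ℝ) ^ (1 - ε) ≤ (((Icc 1 x).filter (fun m => R ≤ m ∧ ∀ r ≤ R, a r ∣ a (m + r) ∧ a r ∣ a (m - r) ∧
      ∀ q : ℕ, q.Prime → q ∣ (a (m + r) / a r) * (a (m - r) / a r) → c * Real.log x ^ 2 < q)).card : ℝ) := by
  obtain ⟨c, hc, x₀, h⟩ := Pool.Agent.X37.PE.main R ε hε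
  refine ⟨c, hc, x₀, fun x hx => ?_⟩
  have h1 := h x hx
  unfold Pool.Agent.X37.PE.Good at h1
  have e : a = Pool.Agent.X37.PE.a := funext a_eq
  rw [e]
  convert h1

end Pool.Agent.Results.MP_f53aaa_nt.CofactorsBeyondLogSquared
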