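import Pool.Agent.X37.PF.MainK

/-!
# MP_f53aaa_nt: prime factors of the cofactors up to any power of the logarithm and the order of `17 + 12 √2`

The admissible primes are the primes among the numbers `a m = 8 d ^ 2 + 1 = 64 b ^ 2 + 9`, where
`d + b √8 = (3 + √8) ^ m`. A prime `q ≥ 5` divides a term only if `2` is a square modulo `q`, and whether `q` divides
`a m` depends on `m` modulo the order of `17 + 12 √2` modulo `q`.

For every `R`, `ε > 0` and `1 / 2 ≤ κ < 1` there are, for large `x`, at least `x ^ (1 - ε)` indices `m ≤ x` such that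
for all `r ≤ R` the terms with the indices `m + r` and `m - r` are `a r` times a cofactor, and every prime factor
`q ≤ c (log x) ^ (1 / (1 - κ))` of one of the cofactors has an order all of whose prime factors are smaller than
`8 (R + 1) q ^ κ`.

For `w = c₁ log x` let `m` be a multiple of the cube `K` of `lcm (1, …, w)`. If the order of a prime `q` in this range
has a prime factor `l ≥ 8 (R + 1) q ^ κ`, then the rest of the order is at most `w`, so the order divides `K` or `K l`;
in the second case `q` excludes at most `4 (R + 1)` classes of `m / K` modulo `l`. The classes are sifted by a pure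
sieve; the sum of their densities is at most a constant times the sum of `q ^ (-κ)` over the primes of the range.
-/

set_option autoImplicit false

namespace Pool.Agent.Results.MP_f53aaa_nt.LargePrimeInOrder

open Finset

/-- `(d, b)` with `d + b √8 = (3 + √8) ^ m` -/
def sol : ℕ → ℕ × ℕ
  | 0 => (1, 0)
  | m + 1 => (3 * (sol m).1 + 8 * (sol m).2, (sol m).1 + 3 * (sol m).2)

/-- the common value `8 d ^ 2 + 1` (`= 64 b ^ 2 + 9`) -/
def a (m : ℕ) : ℕ := 8 * (sol m).1 ^ 2 + 1

lemma sol_eq (m : ℕ) : sol m = Pool.Agent.X37.PE.sol m := by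
  induction m with
  | zero => rfl
  | succ m ih => simp only [sol, Pool.Agent.X37.PE.sol, ih]

lemma a_eq (m : ℕ) : a m = Pool.Agent.X37.PE.a m := by
  unfold a Pool.Agent.X37.PE.a
  rw [sol_eq]

open Classical in
theorem result (R : ℕ) (κ : ℝ) (hκ : 1 / 2 ≤ κ) (hκ1 : κ < 1) (ε : ℝ) (hε : 0 < ε) :
    ∃ c : ℝ, 0 < c ∧ ∃ x₀ : ℕ, ∀ x : ℕ, x₀ ≤ x →
    (x : ℝ) ^ (1 - ε) ≤ (((Icc 1 x).filter (fun m => R ≤ m ∧ ∀ r ≤ R, a r ∣ a (m + r) ∧ a r ∣ a (m - r) ∧
      ∀ q : ℕ, q.Prime → q ∣ (a (m + r) / a r) * (a (m - r) / a r) →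
        (q : ℝ) ≤ c * Real.log x ^ (1 / (1 - κ)) → ∀ s : ZMod q, s * s = 2 →
          ∀ l : ℕ, l.Prime → l ∣ orderOf (17 + 12 * s) → (l : ℝ) < 8 * (R + 1) * (q : ℝ) ^ κ)).card : ℝ) := by
  obtain ⟨c, hc, x₀, h⟩ := Pool.Agent.X37.PE.mainK R κ hκ hκ1 ε hε
  refine ⟨c, hc, x₀, fun x hx => ?_⟩
  have h1 := h x hx
  unfold Pool.Agent.X37.PE.GoodK at h1
  have e : a = Pool.Agent.X37.PE.a := funext a_eq
  rw [e]
  convert h1

end Pool.Agent.Results.MP_f53aaa_nt.LargePrimeInOrder
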